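import Mathlib

/-!
Rotation matrices and their action on the vertices of a regular pentagon.
-/

set_option autoImplicit false

open scoped BigOperators Matrix

namespace Pool.Agent.Lib.MP_045051_co.Pent

/-- the rotation with quaternion `(a, b, c, d)` -/
def Rq (a b c d : ℝ) : Matrix (Fin 3) (Fin 3) ℝ :=
  !![a ^ 2 - b ^ 2 - c ^ 2 + d ^ 2, -2 * a * b + 2 * c * d, 2 * (a * c + b * d);
     2 * a * b + 2 * c * d, a ^ 2 - b ^ 2 + c ^ 2 - d ^ 2, 2 * (b * c - a * d);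
     -2 * (a * c - b * d), 2 * (a * d + b * c), a ^ 2 + b ^ 2 - c ^ 2 - d ^ 2]

theorem Rq_orth {a b c d : ℝ} (h : a ^ 2 + b ^ 2 + c ^ 2 + d ^ 2 = 1) :
    (Rq a b c d)ᵀ * Rq a b c d = 1 := by
  have h2 : (a ^ 2 + b ^ 2 + c ^ 2 + d ^ 2) ^ 2 = 1 := by rw [h]; norm_num
  ext i j
  fin_cases i <;> fin_cases j <;>
    simp [Rq, Matrix.mul_apply, Fin.sum_univ_three] <;> first | ring1 | linear_combination h2

theorem Rq_det {a b c d : ℝ} (h : a ^ 2 + b ^ 2 + c ^ 2 + d ^ 2 = 1) : (Rq a b c d).det = 1 := by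
  have h3 : (a ^ 2 + b ^ 2 + c ^ 2 + d ^ 2) ^ 3 = 1 := by rw [h]; norm_num
  rw [Matrix.det_fin_three]
  simp [Rq]
  linear_combination h3

/-- the rotation with three angles -/
noncomputable def Rm (θ ψ φ : ℝ) : Matrix (Fin 3) (Fin 3) ℝ :=
  Rq (Real.cos ψ * Real.cos θ) (Real.cos ψ * Real.sin θ) (Real.sin ψ * Real.cos φ)
    (Real.sin ψ * Real.sin φ)

theorem Rm_unit (θ ψ φ : ℝ) : (Real.cos ψ * Real.cos θ) ^ 2 + (Real.cos ψ * Real.sin θ) ^ 2 +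
    (Real.sin ψ * Real.cos φ) ^ 2 + (Real.sin ψ * Real.sin φ) ^ 2 = 1 := by
  have h1 := Real.sin_sq_add_cos_sq θ
  have h2 := Real.sin_sq_add_cos_sq φ
  have h3 := Real.sin_sq_add_cos_sq ψ
  linear_combination (Real.cos ψ) ^ 2 * h1 + (Real.sin ψ) ^ 2 * h2 + h3

/-- the rotated point -/
noncomputable def Pf (r h θ ψ φ x : ℝ) : Fin 3 → ℝ :=
  ![r * Real.cos ψ ^ 2 * Real.cos (2 * θ + x) - r * Real.sin ψ ^ 2 * Real.cos (2 * φ + x) +
      2 * h * Real.cos ψ * Real.sin ψ * Real.cos (θ - φ),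
    r * Real.cos ψ ^ 2 * Real.sin (2 * θ + x) + r * Real.sin ψ ^ 2 * Real.sin (2 * φ + x) +
      2 * h * Real.cos ψ * Real.sin ψ * Real.sin (θ - φ),
    (Real.cos ψ ^ 2 - Real.sin ψ ^ 2) * h -
      2 * r * Real.cos ψ * Real.sin ψ * Real.cos (θ + φ + x)]

theorem Rm_mulVec (r h θ ψ φ x : ℝ) :
    Rm θ ψ φ *ᵥ ![r * Real.cos x, r * Real.sin x, h] = Pf r h θ ψ φ x := by
  have h1 := Real.sin_sq_add_cos_sq θ
  have h2 := Real.sin_sq_add_cos_sq φ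
  funext i
  unfold Rm Rq Pf
  fin_cases i
  · simp [Matrix.mulVec, dotProduct, Fin.sum_univ_three, Real.cos_add, Real.cos_sub,
      Real.cos_two_mul, Real.sin_two_mul]
    linear_combination (-(r * Real.cos ψ ^ 2 * Real.cos x)) * h1 +
      (r * Real.sin ψ ^ 2 * Real.cos x) * h2
  · simp [Matrix.mulVec, dotProduct, Fin.sum_univ_three, Real.sin_add, Real.sin_sub,
      Real.cos_two_mul, Real.sin_two_mul]
    linear_combination (-(r * Real.cos ψ ^ 2 * Real.sin x)) * h1 -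
      (r * Real.sin ψ ^ 2 * Real.sin x) * h2
  · simp [Matrix.mulVec, dotProduct, Fin.sum_univ_three, Real.sin_add, Real.cos_add]
    linear_combination (h * Real.cos ψ ^ 2) * h1 - (h * Real.sin ψ ^ 2) * h2

theorem Pf_shift (r h θ ψ φ x τ : ℝ) : Pf r h (θ + τ) ψ (φ + τ) x = Pf r h θ ψ φ (x + 2 * τ) := by
  unfold Pf
  have e1 : 2 * (θ + τ) + x = 2 * θ + (x + 2 * τ) := by ring
  have e2 : 2 * (φ + τ) + x = 2 * φ + (x + 2 * τ) := by ring
  have e3 : θ + τ - (φ + τ) = θ - φ := by ring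
  have e4 : θ + τ + (φ + τ) + x = θ + φ + (x + 2 * τ) := by ring
  rw [e1, e2, e3, e4]

theorem Pf_theta (r h θ ψ φ x : ℝ) : Pf r h (θ + 2 * Real.pi) ψ φ x = Pf r h θ ψ φ x := by
  unfold Pf
  have e1 : 2 * (θ + 2 * Real.pi) + x = 2 * θ + x + 2 * Real.pi + 2 * Real.pi := by ring
  have e3 : θ + 2 * Real.pi - φ = θ - φ + 2 * Real.pi := by ring
  have e4 : θ + 2 * Real.pi + φ + x = θ + φ + x + 2 * Real.pi := by ring
  rw [e1, e3, e4]
  simp only [Real.cos_add_two_pi, Real.sin_add_two_pi]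

theorem Pf_x (r h θ ψ φ x : ℝ) (N : ℤ) :
    Pf r h θ ψ φ (x + N * (2 * Real.pi)) = Pf r h θ ψ φ x := by
  unfold Pf
  have e1 : 2 * θ + (x + N * (2 * Real.pi)) = 2 * θ + x + N * (2 * Real.pi) := by ring
  have e2 : 2 * φ + (x + N * (2 * Real.pi)) = 2 * φ + x + N * (2 * Real.pi) := by ring
  have e4 : θ + φ + (x + N * (2 * Real.pi)) = θ + φ + x + N * (2 * Real.pi) := by ring
  rw [e1, e2, e4]
  simp only [Real.cos_add_int_mul_two_pi, Real.sin_add_int_mul_two_pi]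

theorem Pf_zero (r h θ φ φ' x : ℝ) : Pf r h θ 0 φ x = Pf r h θ 0 φ' x := by
  unfold Pf
  simp

theorem Pf_top (r h θ θ' φ x : ℝ) :
    Pf r h θ (Real.pi / 2) φ x = Pf r h θ' (Real.pi / 2) φ x := by
  unfold Pf
  simp

theorem Pf_norm {r h : ℝ} (hrh : r ^ 2 + h ^ 2 = 1) (θ ψ φ x : ℝ) :
    Pf r h θ ψ φ x 0 ^ 2 + Pf r h θ ψ φ x 1 ^ 2 + Pf r h θ ψ φ x 2 ^ 2 = 1 := by
  have h1 : Pf r h θ ψ φ x ⬝ᵥ Pf r h θ ψ φ x = 1 := by
    rw [← Rm_mulVec, Matrix.dotProduct_mulVec, Matrix.vecMul_mulVec]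
    unfold Rm
    rw [Rq_orth (Rm_unit θ ψ φ), Matrix.vecMul_one]
    simp [dotProduct, Fin.sum_univ_three]
    linear_combination r ^ 2 * Real.sin_sq_add_cos_sq x + hrh
  rw [← h1]
  simp [dotProduct, Fin.sum_univ_three]
  ring

theorem Pf_continuous (r h x : ℝ) :
    Continuous fun p : ℝ × ℝ × ℝ => Pf r h p.1 p.2.1 p.2.2 x := by
  refine continuous_pi fun i => ?_
  unfold Pf
  fin_cases i
  · simp
    fun_prop
  · simp
    fun_prop
  · simp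
    fun_prop

end Pool.Agent.Lib.MP_045051_co.Pent
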