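import Mathlib

/-!
The combinatorial core: there is no `Z/5`-equivariant labelling of the three sphere by
`Fin 3 × ZMod 5` such that nearby points with the same first label have the same second label.
-/

set_option autoImplicit false

open scoped BigOperators

namespace Pool.Agent.Lib.MP_045051_co.Pent

/-- labels -/
abbrev Lb : Type := Fin 3 × ZMod 5

/-- the generator of `Z/5` on labels -/
def gen (u : Lb) : Lb := (u.1, u.2 + 1)

/-- compatible labels -/
def Compat (u v : Lb) : Prop := u.1 = v.1 → u.2 = v.2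

/-- the lift of the difference to an integer between `-2` and `2` -/
def be (a b : ZMod 5) : ℤ := (b - a).valMinAbs

theorem be_anti : ∀ a b : ZMod 5, be b a = - be a b := by decide

theorem be_self (a : ZMod 5) : be a a = 0 := by
  unfold be
  simp

theorem be_cast (a b : ZMod 5) : ((be a b : ℤ) : ZMod 5) = b - a := by
  unfold be
  exact ZMod.coe_valMinAbs _

theorem be_add (a b : ZMod 5) : be (a + 1) (b + 1) = be a b := by
  unfold be
  congr 1
  ring

/-- one fifth of the coboundary of `be` -/
def kap (a b c : ZMod 5) : ℤ := (be b c - be a c + be a b) / 5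

theorem five_kap : ∀ a b c : ZMod 5, 5 * kap a b c = be b c - be a c + be a b := by decide

theorem kap_add (a b c : ZMod 5) : kap (a + 1) (b + 1) (c + 1) = kap a b c := by
  unfold kap
  rw [be_add, be_add, be_add]

theorem kap_left (a c : ZMod 5) : kap a a c = 0 := by
  have := five_kap a a c
  rw [be_self] at this
  omega

theorem kap_right (a c : ZMod 5) : kap a c c = 0 := by
  have := five_kap a c c
  rw [be_self] at this
  omega

theorem kap_mid (a c : ZMod 5) : kap a c a = 0 := by
  have := five_kap a c a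
  rw [be_self, be_anti a c] at this
  omega

theorem kap_swap1 (a b c : ZMod 5) : kap b a c = - kap a b c := by
  have h1 := five_kap a b c
  have h2 := five_kap b a c
  rw [be_anti a b] at h2
  omega

theorem kap_swap2 (a b c : ZMod 5) : kap a c b = - kap a b c := by
  have h1 := five_kap a b c
  have h2 := five_kap a c b
  rw [be_anti b c] at h2
  omega

/-- the marker -/
def mk (u : Lb) : ZMod 5 := if u.1 = 0 then u.2 else 0

/-- the two dimensional cochain -/
def bb (u v w : Lb) : ZMod 5 := ((kap u.2 v.2 w.2 : ℤ) : ZMod 5) * (mk u + mk v + mk w)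

theorem bb_left (u w : Lb) : bb u u w = 0 := by
  unfold bb
  rw [kap_left]
  simp

theorem bb_right (u w : Lb) : bb u w w = 0 := by
  unfold bb
  rw [kap_right]
  simp

theorem bb_mid (u w : Lb) : bb u w u = 0 := by
  unfold bb
  rw [kap_mid]
  simp

theorem bb_swap1 (u v w : Lb) : bb v u w = - bb u v w := by
  unfold bb
  rw [kap_swap1]
  push_cast
  ring

theorem bb_swap2 (u v w : Lb) : bb u w v = - bb u v w := by
  unfold bb
  rw [kap_swap2]
  push_cast
  ring

/-- the coboundary of `bb` vanishes on four pairwise compatible labels -/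
theorem delta_bb {v0 v1 v2 v3 : Lb} (h01 : Compat v0 v1) (h02 : Compat v0 v2)
    (h03 : Compat v0 v3) (h12 : Compat v1 v2) (h13 : Compat v1 v3) (h23 : Compat v2 v3) :
    bb v1 v2 v3 - bb v0 v2 v3 + bb v0 v1 v3 - bb v0 v1 v2 = 0 := by
  have hp : v0.1 = v1.1 ∨ v0.1 = v2.1 ∨ v0.1 = v3.1 ∨ v1.1 = v2.1 ∨ v1.1 = v3.1 ∨ v2.1 = v3.1 := by
    have : ∀ a b c d : Fin 3, a = b ∨ a = c ∨ a = d ∨ b = c ∨ b = d ∨ c = d := by decide
    exact this _ _ _ _
  rcases hp with h | h | h | h | h | h
  · have e : v0 = v1 := Prod.ext h (h01 h)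
    subst e
    rw [bb_left, bb_left]
    ring
  · have e : v0 = v2 := Prod.ext h (h02 h)
    subst e
    rw [bb_left, bb_mid, bb_swap1 v0 v1 v3]
    ring
  · have e : v0 = v3 := Prod.ext h (h03 h)
    subst e
    rw [bb_mid, bb_mid, bb_swap2 v1 v0 v2, bb_swap1 v0 v1 v2]
    ring
  · have e : v1 = v2 := Prod.ext h (h12 h)
    subst e
    rw [bb_left, bb_right]
    ring
  · have e : v1 = v3 := Prod.ext h (h13 h)
    subst e
    rw [bb_mid, bb_right, bb_swap2 v0 v1 v2]
    ring
  · have e : v2 = v3 := Prod.ext h (h23 h)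
    subst e
    rw [bb_right, bb_right]
    ring

/-- the action of the generator on `bb` -/
theorem bb_gen {u v w : Lb} (h1 : Compat u v) (h2 : Compat u w) (h3 : Compat v w) :
    bb (gen u) (gen v) (gen w) = bb u v w + ((kap u.2 v.2 w.2 : ℤ) : ZMod 5) := by
  by_cases hk : kap u.2 v.2 w.2 = 0
  · unfold bb gen
    simp only
    rw [kap_add, hk]
    simp
  · have n1 : u.1 ≠ v.1 := fun h => hk (by rw [h1 h, kap_left])
    have n2 : u.1 ≠ w.1 := fun h => hk (by rw [h2 h, kap_mid])
    have n3 : v.1 ≠ w.1 := fun h => hk (by rw [h3 h, kap_right])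
    have hm : mk (gen u) + mk (gen v) + mk (gen w) = mk u + mk v + mk w + 1 := by
      have key : ∀ a b c : Fin 3, a ≠ b → a ≠ c → b ≠ c →
          (a = 0 ∧ b ≠ 0 ∧ c ≠ 0) ∨ (a ≠ 0 ∧ b = 0 ∧ c ≠ 0) ∨ (a ≠ 0 ∧ b ≠ 0 ∧ c = 0) := by
        decide
      unfold mk gen
      simp only
      rcases key _ _ _ n1 n2 n3 with ⟨a, b, c⟩ | ⟨a, b, c⟩ | ⟨a, b, c⟩
      · rw [if_pos a, if_neg b, if_neg c, if_pos a, if_neg b, if_neg c]
        ring
      · rw [if_neg a, if_pos b, if_neg c, if_neg a, if_pos b, if_neg c]
        ring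
      · rw [if_neg a, if_neg b, if_pos c, if_neg a, if_neg b, if_pos c]
        ring
    have e : bb (gen u) (gen v) (gen w) =
        ((kap u.2 v.2 w.2 : ℤ) : ZMod 5) * (mk (gen u) + mk (gen v) + mk (gen w)) := by
      unfold bb gen
      simp only
      rw [kap_add]
    rw [e, hm]
    unfold bb
    ring

theorem sum_shift_one {A : Type} [AddCommGroup A] (F : ℕ → A) (P : ℕ) (h : F P = F 0) :
    ∑ x ∈ Finset.range P, F (x + 1) = ∑ x ∈ Finset.range P, F x := by
  have h1 := Finset.sum_range_succ' F P
  have h2 := Finset.sum_range_succ F P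
  rw [h1, h] at h2
  exact add_right_cancel h2

theorem sum_shift {A : Type} [AddCommGroup A] (F : ℕ → A) (P : ℕ) (h : ∀ x, F (x + P) = F x)
    (m : ℕ) : ∑ x ∈ Finset.range P, F (x + m) = ∑ x ∈ Finset.range P, F x := by
  induction m with
  | zero => simp
  | succ m ih =>
    have e : F (P + m) = F (0 + m) := by rw [Nat.zero_add, Nat.add_comm, h]
    rw [← ih, ← sum_shift_one (fun x => F (x + m)) P e]
    refine Finset.sum_congr rfl fun x _ => ?_
    have : x + (m + 1) = x + 1 + m := by omega
    rw [this]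

/-- The grid lemma. -/
theorem grid (M N K : ℕ) (L : ℕ → ℕ → ℕ → Lb) (hper : ∀ x y z, L (x + 5 * M) y z = L x y z)
    (h0 : ∀ x z, L x 0 z = L x 0 0) (hN : ∀ x z, L x N z = L 0 N z)
    (hg : ∀ x, ∀ y ≤ N, L (x + M) y K = gen (L x y 0))
    (hc : ∀ x < 5 * M, ∀ y < N, ∀ z < K, ∀ i j k i' j' k' : ℕ, i ≤ 1 → j ≤ 1 → k ≤ 1 →
      i' ≤ 1 → j' ≤ 1 → k' ≤ 1 →
      Compat (L (x + i) (y + j) (z + k)) (L (x + i') (y + j') (z + k'))) (hK : 0 < K) : False := by
  obtain ⟨qz, hqz⟩ : ∃ q : ℕ → ℕ → ℕ → ZMod 5, ∀ x y z, q x y z =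
      bb (L x y z) (L (x + 1) y z) (L (x + 1) (y + 1) z) -
        bb (L x y z) (L x (y + 1) z) (L (x + 1) (y + 1) z) := ⟨_, fun _ _ _ => rfl⟩
  obtain ⟨qy, hqy⟩ : ∃ q : ℕ → ℕ → ℕ → ZMod 5, ∀ x y z, q x y z =
      bb (L x y z) (L (x + 1) y z) (L (x + 1) y (z + 1)) -
        bb (L x y z) (L x y (z + 1)) (L (x + 1) y (z + 1)) := ⟨_, fun _ _ _ => rfl⟩
  obtain ⟨qx, hqx⟩ : ∃ q : ℕ → ℕ → ℕ → ZMod 5, ∀ x y z, q x y z =
      bb (L x y z) (L x (y + 1) z) (L x (y + 1) (z + 1)) -
        bb (L x y z) (L x y (z + 1)) (L x (y + 1) (z + 1)) := ⟨_, fun _ _ _ => rfl⟩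
  -- the cube identity
  have cube : ∀ x < 5 * M, ∀ y < N, ∀ z < K, qz x y (z + 1) - qz x y z =
      (qy x (y + 1) z - qy x y z) - (qx (x + 1) y z - qx x y z) := by
    intro x hx y hy z hz
    have hcc : ∀ i j k i' j' k' : ℕ, i ≤ 1 → j ≤ 1 → k ≤ 1 → i' ≤ 1 → j' ≤ 1 → k' ≤ 1 →
      Compat (L (x + i) (y + j) (z + k)) (L (x + i') (y + j') (z + k')) := hc x hx y hy z hz
    have t1 := delta_bb (hcc 0 0 0 1 0 0 (by decide) (by decide) (by decide) (by decide)
        (by decide) (by decide)) (hcc 0 0 0 1 1 0 (by decide) (by decide) (by decide) (by decide)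
        (by decide) (by decide)) (hcc 0 0 0 1 1 1 (by decide) (by decide) (by decide) (by decide)
        (by decide) (by decide)) (hcc 1 0 0 1 1 0 (by decide) (by decide) (by decide) (by decide)
        (by decide) (by decide)) (hcc 1 0 0 1 1 1 (by decide) (by decide) (by decide) (by decide)
        (by decide) (by decide)) (hcc 1 1 0 1 1 1 (by decide) (by decide) (by decide) (by decide)
        (by decide) (by decide))
    have t2 := delta_bb (hcc 0 0 0 1 0 0 (by decide) (by decide) (by decide) (by decide)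
        (by decide) (by decide)) (hcc 0 0 0 1 0 1 (by decide) (by decide) (by decide) (by decide)
        (by decide) (by decide)) (hcc 0 0 0 1 1 1 (by decide) (by decide) (by decide) (by decide)
        (by decide) (by decide)) (hcc 1 0 0 1 0 1 (by decide) (by decide) (by decide) (by decide)
        (by decide) (by decide)) (hcc 1 0 0 1 1 1 (by decide) (by decide) (by decide) (by decide)
        (by decide) (by decide)) (hcc 1 0 1 1 1 1 (by decide) (by decide) (by decide) (by decide)
        (by decide) (by decide))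
    have t3 := delta_bb (hcc 0 0 0 0 1 0 (by decide) (by decide) (by decide) (by decide)
        (by decide) (by decide)) (hcc 0 0 0 1 1 0 (by decide) (by decide) (by decide) (by decide)
        (by decide) (by decide)) (hcc 0 0 0 1 1 1 (by decide) (by decide) (by decide) (by decide)
        (by decide) (by decide)) (hcc 0 1 0 1 1 0 (by decide) (by decide) (by decide) (by decide)
        (by decide) (by decide)) (hcc 0 1 0 1 1 1 (by decide) (by decide) (by decide) (by decide)
        (by decide) (by decide)) (hcc 1 1 0 1 1 1 (by decide) (by decide) (by decide) (by decide)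
        (by decide) (by decide))
    have t4 := delta_bb (hcc 0 0 0 0 1 0 (by decide) (by decide) (by decide) (by decide)
        (by decide) (by decide)) (hcc 0 0 0 0 1 1 (by decide) (by decide) (by decide) (by decide)
        (by decide) (by decide)) (hcc 0 0 0 1 1 1 (by decide) (by decide) (by decide) (by decide)
        (by decide) (by decide)) (hcc 0 1 0 0 1 1 (by decide) (by decide) (by decide) (by decide)
        (by decide) (by decide)) (hcc 0 1 0 1 1 1 (by decide) (by decide) (by decide) (by decide)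
        (by decide) (by decide)) (hcc 0 1 1 1 1 1 (by decide) (by decide) (by decide) (by decide)
        (by decide) (by decide))
    have t5 := delta_bb (hcc 0 0 0 0 0 1 (by decide) (by decide) (by decide) (by decide)
        (by decide) (by decide)) (hcc 0 0 0 1 0 1 (by decide) (by decide) (by decide) (by decide)
        (by decide) (by decide)) (hcc 0 0 0 1 1 1 (by decide) (by decide) (by decide) (by decide)
        (by decide) (by decide)) (hcc 0 0 1 1 0 1 (by decide) (by decide) (by decide) (by decide)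
        (by decide) (by decide)) (hcc 0 0 1 1 1 1 (by decide) (by decide) (by decide) (by decide)
        (by decide) (by decide)) (hcc 1 0 1 1 1 1 (by decide) (by decide) (by decide) (by decide)
        (by decide) (by decide))
    have t6 := delta_bb (hcc 0 0 0 0 0 1 (by decide) (by decide) (by decide) (by decide)
        (by decide) (by decide)) (hcc 0 0 0 0 1 1 (by decide) (by decide) (by decide) (by decide)
        (by decide) (by decide)) (hcc 0 0 0 1 1 1 (by decide) (by decide) (by decide) (by decide)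
        (by decide) (by decide)) (hcc 0 0 1 0 1 1 (by decide) (by decide) (by decide) (by decide)
        (by decide) (by decide)) (hcc 0 0 1 1 1 1 (by decide) (by decide) (by decide) (by decide)
        (by decide) (by decide)) (hcc 0 1 1 1 1 1 (by decide) (by decide) (by decide) (by decide)
        (by decide) (by decide))
    simp only [Nat.add_zero] at t1 t2 t3 t4 t5 t6
    rw [hqz, hqz, hqy, hqy, hqx, hqx]
    linear_combination t1 - t2 - t3 + t4 + t5 - t6
  -- constancy of the sums
  have hstep : ∀ z < K, ∑ x ∈ Finset.range (5 * M), ∑ y ∈ Finset.range N, qz x y (z + 1) =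
      ∑ x ∈ Finset.range (5 * M), ∑ y ∈ Finset.range N, qz x y z := by
    intro z hz
    have e1 : ∑ x ∈ Finset.range (5 * M), ∑ y ∈ Finset.range N, (qz x y (z + 1) - qz x y z) =
        ∑ x ∈ Finset.range (5 * M), ∑ y ∈ Finset.range N, (qy x (y + 1) z - qy x y z) -
        ∑ x ∈ Finset.range (5 * M), ∑ y ∈ Finset.range N, (qx (x + 1) y z - qx x y z) := by
      rw [← Finset.sum_sub_distrib]
      refine Finset.sum_congr rfl fun x hx => ?_
      rw [← Finset.sum_sub_distrib]
      refine Finset.sum_congr rfl fun y hy => ?_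
      exact cube x (Finset.mem_range.1 hx) y (Finset.mem_range.1 hy) z hz
    have e2 : ∑ x ∈ Finset.range (5 * M), ∑ y ∈ Finset.range N, (qy x (y + 1) z - qy x y z) =
        0 := by
      refine Finset.sum_eq_zero fun x _ => ?_
      rw [Finset.sum_range_sub (fun y => qy x y z)]
      rw [hqy, hqy, hN x z, hN (x + 1) z, hN (x + 1) (z + 1), hN x (z + 1), bb_left, bb_right]
      rw [h0 x z, h0 (x + 1) z, h0 (x + 1) (z + 1), h0 x (z + 1), bb_left, bb_right]
      ring
    have e3 : ∑ x ∈ Finset.range (5 * M), ∑ y ∈ Finset.range N, (qx (x + 1) y z - qx x y z) =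
        0 := by
      rw [Finset.sum_comm]
      refine Finset.sum_eq_zero fun y _ => ?_
      rw [Finset.sum_range_sub (fun x => qx x y z)]
      rw [hqx, hqx]
      have h5 : ∀ y z, L (5 * M) y z = L 0 y z := fun y z => by
        have := hper 0 y z
        rwa [Nat.zero_add] at this
      rw [h5, h5, h5, h5]
      ring
    rw [e2, e3, sub_zero] at e1
    simp only [Finset.sum_sub_distrib] at e1
    exact sub_eq_zero.1 e1
  have hconst : ∀ z ≤ K, ∑ x ∈ Finset.range (5 * M), ∑ y ∈ Finset.range N, qz x y z =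
      ∑ x ∈ Finset.range (5 * M), ∑ y ∈ Finset.range N, qz x y 0 := by
    intro z
    induction z with
    | zero => intro _; rfl
    | succ z ih =>
      intro hz
      rw [hstep z hz, ih (by omega)]
  -- the disc sum of kap
  obtain ⟨kq, hkq⟩ : ∃ q : ℕ → ℕ → ℤ, ∀ x y, q x y =
      kap (L x y 0).2 (L (x + 1) y 0).2 (L (x + 1) (y + 1) 0).2 -
        kap (L x y 0).2 (L x (y + 1) 0).2 (L (x + 1) (y + 1) 0).2 := ⟨_, fun _ _ => rfl⟩
  have hmod : ((∑ x ∈ Finset.range (5 * M), ∑ y ∈ Finset.range N, kq x y : ℤ) : ZMod 5) = 0 := by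
    have e1 : ∑ x ∈ Finset.range (5 * M), ∑ y ∈ Finset.range N, qz x y K =
        ∑ x ∈ Finset.range (5 * M), ∑ y ∈ Finset.range N, qz (x + M) y K := by
      refine (sum_shift (fun x => ∑ y ∈ Finset.range N, qz x y K) (5 * M) ?_ M).symm
      intro x
      refine Finset.sum_congr rfl fun y _ => ?_
      rw [hqz, hqz, Nat.add_right_comm x (5 * M) 1, hper, hper, hper, hper]
    have e2 : ∀ x ∈ Finset.range (5 * M), ∀ y ∈ Finset.range N,
        qz (x + M) y K = qz x y 0 + ((kq x y : ℤ) : ZMod 5) := by
      intro x hx y hy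
      have hcc : ∀ i j k i' j' k' : ℕ, i ≤ 1 → j ≤ 1 → k ≤ 1 → i' ≤ 1 → j' ≤ 1 → k' ≤ 1 →
        Compat (L (x + i) (y + j) (0 + k)) (L (x + i') (y + j') (0 + k')) :=
        hc x (Finset.mem_range.1 hx) y (Finset.mem_range.1 hy) 0 hK
      have c1 := bb_gen (hcc 0 0 0 1 0 0 (by decide) (by decide) (by decide) (by decide)
        (by decide) (by decide)) (hcc 0 0 0 1 1 0 (by decide) (by decide) (by decide) (by decide)
        (by decide) (by decide)) (hcc 1 0 0 1 1 0 (by decide) (by decide) (by decide) (by decide)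
        (by decide) (by decide))
      have c2 := bb_gen (hcc 0 0 0 0 1 0 (by decide) (by decide) (by decide) (by decide)
        (by decide) (by decide)) (hcc 0 0 0 1 1 0 (by decide) (by decide) (by decide) (by decide)
        (by decide) (by decide)) (hcc 0 1 0 1 1 0 (by decide) (by decide) (by decide) (by decide)
        (by decide) (by decide))
      simp only [Nat.add_zero] at c1 c2
      have hyN := Finset.mem_range.1 hy
      rw [hqz, hqz, hkq, Nat.add_right_comm x M 1, hg _ _ (by omega), hg _ _ (by omega),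
        hg _ _ (by omega), hg _ _ (by omega), c1, c2]
      push_cast
      ring
    have e3 := hconst K le_rfl
    rw [e1, Finset.sum_congr rfl fun x hx => Finset.sum_congr rfl fun y hy => e2 x hx y hy] at e3
    simp only [Finset.sum_add_distrib] at e3
    push_cast
    exact add_eq_left.1 e3
  -- the boundary sum
  obtain ⟨W, hW⟩ : ∃ W : ℕ → ℤ, ∀ y, W y =
      ∑ x ∈ Finset.range (5 * M), be (L x y 0).2 (L (x + 1) y 0).2 := ⟨_, fun _ => rfl⟩
  have hWstep : ∀ y, 5 * ∑ x ∈ Finset.range (5 * M), kq x y = W y - W (y + 1) := by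
    intro y
    have e1 : ∀ x, 5 * kq x y = (be (L x y 0).2 (L (x + 1) y 0).2 -
        be (L x (y + 1) 0).2 (L (x + 1) (y + 1) 0).2) +
        (be (L (x + 1) y 0).2 (L (x + 1) (y + 1) 0).2 - be (L x y 0).2 (L x (y + 1) 0).2) := by
      intro x
      rw [hkq, mul_sub, five_kap, five_kap]
      ring
    rw [Finset.mul_sum, Finset.sum_congr rfl fun x _ => e1 x, Finset.sum_add_distrib,
      Finset.sum_range_sub (fun x => be (L x y 0).2 (L x (y + 1) 0).2), Finset.sum_sub_distrib,
      ← hW, ← hW]
    have h5 : ∀ y z, L (5 * M) y z = L 0 y z := fun y z => by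
      have := hper 0 y z
      rwa [Nat.zero_add] at this
    rw [h5, h5]
    ring
  have hWN : W N = 0 := by
    rw [hW]
    refine Finset.sum_eq_zero fun x _ => ?_
    rw [hN x 0, hN (x + 1) 0, be_self]
  have hW0 : 5 * ∑ x ∈ Finset.range (5 * M), ∑ y ∈ Finset.range N, kq x y = W 0 := by
    rw [Finset.sum_comm, Finset.mul_sum, Finset.sum_congr rfl fun y _ => hWstep y,
      Finset.sum_range_sub', hWN, sub_zero]
  have hgM : ∀ x, L (x + M) 0 0 = gen (L x 0 0) := by
    intro x
    rw [← h0 (x + M) K, hg _ _ (Nat.zero_le _)]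
  have hW5 : W 0 = 5 * ∑ x ∈ Finset.range M, be (L x 0 0).2 (L (x + 1) 0 0).2 := by
    rw [hW]
    have e1 : ∀ m, ∑ x ∈ Finset.range (m * M), be (L x 0 0).2 (L (x + 1) 0 0).2 =
        m * ∑ x ∈ Finset.range M, be (L x 0 0).2 (L (x + 1) 0 0).2 := by
      intro m
      induction m with
      | zero => simp
      | succ m ih =>
        rw [Nat.add_mul, Nat.one_mul, Finset.sum_range_add, ih]
        have e2 : ∀ m x, be (L (m * M + x) 0 0).2 (L (m * M + x + 1) 0 0).2 =
            be (L x 0 0).2 (L (x + 1) 0 0).2 := by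
          intro m
          induction m with
          | zero => intro x; rw [Nat.zero_mul, Nat.zero_add]
          | succ m ih =>
            intro x
            have a1 : (m + 1) * M + x = (m * M + x) + M := by ring
            have a2 : (m + 1) * M + x + 1 = (m * M + x + 1) + M := by ring
            rw [a2, a1, hgM, hgM]
            unfold gen
            simp only
            rw [be_add]
            exact ih x
        rw [Finset.sum_congr rfl fun x _ => e2 m x]
        push_cast
        ring
    exact_mod_cast e1 5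
  have hcast : ((∑ x ∈ Finset.range M, be (L x 0 0).2 (L (x + 1) 0 0).2 : ℤ) : ZMod 5) = 1 := by
    push_cast
    rw [Finset.sum_congr rfl fun x _ => be_cast _ _,
      Finset.sum_range_sub (fun x => (L x 0 0).2)]
    have := hgM 0
    rw [Nat.zero_add] at this
    rw [this]
    unfold gen
    simp
  have hfin : ∑ x ∈ Finset.range (5 * M), ∑ y ∈ Finset.range N, kq x y =
      ∑ x ∈ Finset.range M, be (L x 0 0).2 (L (x + 1) 0 0).2 := by
    rw [hW5] at hW0
    omega
  rw [hfin, hcast] at hmod
  exact absurd hmod (by decide)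

end Pool.Agent.Lib.MP_045051_co.Pent
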