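import Mathlib

/-!
Rotations of `R^{n+1}` extending a rotation of a three dimensional subspace.
-/

set_option autoImplicit false

open scoped BigOperators Matrix

namespace Pool.Agent.Lib.MP_045051_co.Pent

/-- the space -/
abbrev En (n : ℕ) : Type := EuclideanSpace ℝ (Fin (n + 1))

theorem norm_mulVec {n : ℕ} (M : Matrix (Fin (n + 1)) (Fin (n + 1)) ℝ) (h : Mᵀ * M = 1)
    (x : En n) : ‖Matrix.toEuclideanLin M x‖ = ‖x‖ := by
  have h1 : ‖Matrix.toEuclideanLin M x‖ ^ 2 = ‖x‖ ^ 2 := by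
    rw [EuclideanSpace.norm_sq_eq, EuclideanSpace.norm_sq_eq]
    have e1 : ∀ y : Fin (n + 1) → ℝ, ∑ i, ‖y i‖ ^ 2 = y ⬝ᵥ y := by
      intro y
      unfold dotProduct
      refine Finset.sum_congr rfl fun i _ => ?_
      rw [Real.norm_eq_abs, sq_abs, sq]
    rw [e1, e1]
    have e2 : (Matrix.toEuclideanLin M x).ofLp = M *ᵥ x.ofLp := rfl
    rw [e2, Matrix.dotProduct_mulVec, Matrix.vecMul_mulVec, h, Matrix.vecMul_one]
  exact (pow_left_inj₀ (norm_nonneg _) (norm_nonneg _) two_ne_zero).1 h1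

/-- the isometry of an orthogonal matrix -/
noncomputable def isoOf {n : ℕ} (M : Matrix (Fin (n + 1)) (Fin (n + 1)) ℝ) (h : Mᵀ * M = 1) :
    En n ≃ₗᵢ[ℝ] En n :=
  (LinearIsometry.mk (Matrix.toEuclideanLin M) (norm_mulVec M h)).toLinearIsometryEquiv rfl

theorem isoOf_apply {n : ℕ} (M : Matrix (Fin (n + 1)) (Fin (n + 1)) ℝ) (h : Mᵀ * M = 1)
    (x : En n) : isoOf M h x = WithLp.toLp 2 (M *ᵥ x.ofLp) := rfl

theorem isoOf_det {n : ℕ} (M : Matrix (Fin (n + 1)) (Fin (n + 1)) ℝ) (h : Mᵀ * M = 1) :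
    LinearMap.det ((isoOf M h).toLinearEquiv : En n →ₗ[ℝ] En n) = M.det := by
  have e : ((isoOf M h).toLinearEquiv : En n →ₗ[ℝ] En n) = Matrix.toEuclideanLin M := by
    apply LinearMap.ext
    intro x
    rfl
  rw [e, Matrix.toEuclideanLin_eq_toLin, LinearMap.det_toLin]

/-- the extension of a rotation -/
def extM {n : ℕ} (A : Matrix (Fin (n + 1)) (Fin 3) ℝ) (R : Matrix (Fin 3) (Fin 3) ℝ) :
    Matrix (Fin (n + 1)) (Fin (n + 1)) ℝ := 1 + A * ((R - 1) * Aᵀ)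

theorem extM_orth {n : ℕ} {A : Matrix (Fin (n + 1)) (Fin 3) ℝ} {R : Matrix (Fin 3) (Fin 3) ℝ}
    (hA : Aᵀ * A = 1) (hR : Rᵀ * R = 1) : (extM A R)ᵀ * extM A R = 1 := by
  have e1 : (extM A R)ᵀ = 1 + A * ((Rᵀ - 1) * Aᵀ) := by
    unfold extM
    simp [Matrix.transpose_mul, Matrix.transpose_sub, Matrix.transpose_add, Matrix.mul_assoc]
  rw [e1]
  unfold extM
  have e2 : A * ((Rᵀ - 1) * Aᵀ) * (A * ((R - 1) * Aᵀ)) = A * ((Rᵀ - 1) * (R - 1) * Aᵀ) := by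
    calc A * ((Rᵀ - 1) * Aᵀ) * (A * ((R - 1) * Aᵀ)) =
          A * ((Rᵀ - 1) * (Aᵀ * A) * ((R - 1) * Aᵀ)) := by simp only [Matrix.mul_assoc]
      _ = A * ((Rᵀ - 1) * (R - 1) * Aᵀ) := by rw [hA, Matrix.mul_one, Matrix.mul_assoc]
  have e3 : (Rᵀ - 1) * (R - 1) = -(Rᵀ - 1) - (R - 1) := by
    have : (Rᵀ - 1) * (R - 1) = Rᵀ * R - Rᵀ - R + 1 := by noncomm_ring
    rw [this, hR]
    abel
  calc (1 + A * ((Rᵀ - 1) * Aᵀ)) * (1 + A * ((R - 1) * Aᵀ)) =
        1 + A * ((R - 1) * Aᵀ) + A * ((Rᵀ - 1) * Aᵀ) +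
          A * ((Rᵀ - 1) * Aᵀ) * (A * ((R - 1) * Aᵀ)) := by noncomm_ring
    _ = 1 + A * ((R - 1) * Aᵀ) + A * ((Rᵀ - 1) * Aᵀ) +
          A * ((-(Rᵀ - 1) - (R - 1)) * Aᵀ) := by rw [e2, e3]
    _ = 1 := by
      rw [add_assoc, add_assoc, ← Matrix.mul_add, ← Matrix.add_mul, ← Matrix.mul_add,
        ← Matrix.add_mul]
      have : R - 1 + (Rᵀ - 1 + (-(Rᵀ - 1) - (R - 1))) = 0 := by abel
      rw [this, Matrix.zero_mul, Matrix.mul_zero, add_zero]

theorem extM_det {n : ℕ} {A : Matrix (Fin (n + 1)) (Fin 3) ℝ} {R : Matrix (Fin 3) (Fin 3) ℝ}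
    (hA : Aᵀ * A = 1) : (extM A R).det = R.det := by
  unfold extM
  rw [Matrix.det_one_add_mul_comm, Matrix.mul_assoc, hA, Matrix.mul_one]
  congr 1
  abel

theorem extM_mulVec {n : ℕ} {A : Matrix (Fin (n + 1)) (Fin 3) ℝ} {R : Matrix (Fin 3) (Fin 3) ℝ}
    (hA : Aᵀ * A = 1) (y : Fin 3 → ℝ) : extM A R *ᵥ (A *ᵥ y) = A *ᵥ (R *ᵥ y) := by
  unfold extM
  rw [Matrix.add_mulVec, Matrix.one_mulVec, Matrix.mulVec_mulVec, Matrix.mul_assoc,
    Matrix.mul_assoc, hA, Matrix.mul_one, ← Matrix.mulVec_mulVec, Matrix.sub_mulVec,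
    Matrix.one_mulVec, Matrix.mulVec_sub]
  abel

theorem norm_emb {n : ℕ} {A : Matrix (Fin (n + 1)) (Fin 3) ℝ} (hA : Aᵀ * A = 1)
    (y : Fin 3 → ℝ) : ‖(WithLp.toLp 2 (A *ᵥ y) : En n)‖ ^ 2 = y 0 ^ 2 + y 1 ^ 2 + y 2 ^ 2 := by
  rw [EuclideanSpace.norm_sq_eq]
  have e1 : ∀ y : Fin (n + 1) → ℝ, ∑ i, ‖y i‖ ^ 2 = y ⬝ᵥ y := by
    intro y
    unfold dotProduct
    refine Finset.sum_congr rfl fun i _ => ?_
    rw [Real.norm_eq_abs, sq_abs, sq]
  rw [e1]
  show (A *ᵥ y) ⬝ᵥ (A *ᵥ y) = _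
  rw [Matrix.dotProduct_mulVec, Matrix.vecMul_mulVec, hA, Matrix.vecMul_one]
  simp [dotProduct, Fin.sum_univ_three]
  ring

/-- the matrix with three given orthonormal columns -/
def colM {n : ℕ} (u v w : En n) : Matrix (Fin (n + 1)) (Fin 3) ℝ :=
  Matrix.of fun i => ![u i, v i, w i]

theorem colM_orth {n : ℕ} {u v w : En n} (hu : ‖u‖ = 1) (hv : ‖v‖ = 1) (hw : ‖w‖ = 1)
    (huv : inner ℝ u v = 0) (huw : inner ℝ u w = 0) (hvw : inner ℝ v w = 0) :
    (colM u v w)ᵀ * colM u v w = 1 := by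
  have hin : ∀ a b : En n, inner ℝ a b = ∑ i, a i * b i := by
    intro a b
    rw [PiLp.inner_apply]
    refine Finset.sum_congr rfl fun i _ => ?_
    simp [mul_comm]
  have huu : inner ℝ u u = (1 : ℝ) := by rw [real_inner_self_eq_norm_sq, hu]; norm_num
  have hvv : inner ℝ v v = (1 : ℝ) := by rw [real_inner_self_eq_norm_sq, hv]; norm_num
  have hww : inner ℝ w w = (1 : ℝ) := by rw [real_inner_self_eq_norm_sq, hw]; norm_num
  have hvu : inner ℝ v u = (0 : ℝ) := by rw [real_inner_comm]; exact huv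
  have hwu : inner ℝ w u = (0 : ℝ) := by rw [real_inner_comm]; exact huw
  have hwv : inner ℝ w v = (0 : ℝ) := by rw [real_inner_comm]; exact hvw
  rw [hin] at huu hvv hww huv huw hvw hvu hwu hwv
  ext i j
  rw [Matrix.mul_apply]
  fin_cases i <;> fin_cases j <;> simp [colM, huu, hvv, hww, huv, huw, hvw, hvu, hwu, hwv]

theorem colM_mulVec {n : ℕ} (u v w : En n) (a b c : ℝ) :
    (WithLp.toLp 2 (colM u v w *ᵥ ![a, b, c]) : En n) = a • u + b • v + c • w := by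
  ext i
  simp [colM, Matrix.mulVec, dotProduct, Fin.sum_univ_three]
  ring

/-- a unit vector orthogonal to two given ones, and a multiple of a third one -/
theorem exists_third {n : ℕ} (hn : 2 ≤ n) {u v c : En n} (hcu : inner ℝ c u = 0)
    (hcv : inner ℝ c v = 0) : ∃ w : En n, ‖w‖ = 1 ∧ inner ℝ u w = 0 ∧ inner ℝ v w = 0 ∧
      c = ‖c‖ • w := by
  by_cases hc : c = 0
  · have hfin : Module.finrank ℝ (Submodule.span ℝ ({u, v} : Set (En n))) ≤ 2 := by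
      have := finrank_span_finset_le_card (R := ℝ) ({u, v} : Finset (En n))
      have h2 : ({u, v} : Finset (En n)).card ≤ 2 := Finset.card_le_two
      rw [Finset.coe_insert, Finset.coe_singleton] at this
      exact this.trans h2
    have htot := Submodule.finrank_add_finrank_orthogonal
      (Submodule.span ℝ ({u, v} : Set (En n)))
    rw [finrank_euclideanSpace_fin] at htot
    have hpos : 0 < Module.finrank ℝ (Submodule.span ℝ ({u, v} : Set (En n)))ᗮ := by omega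
    obtain ⟨w, hw⟩ := (Module.finrank_pos_iff_exists_ne_zero
      (R := ℝ) (M := (Submodule.span ℝ ({u, v} : Set (En n)))ᗮ)).1 hpos
    have hw0 : (w : En n) ≠ 0 := fun h => hw (Subtype.ext h)
    have hwm := (Submodule.mem_orthogonal _ _).1 w.2
    have hwu := hwm u (Submodule.subset_span (by simp))
    have hwv := hwm v (Submodule.subset_span (by simp))
    refine ⟨(‖(w : En n)‖)⁻¹ • (w : En n), ?_, ?_, ?_, ?_⟩
    · rw [norm_smul, norm_inv, norm_norm]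
      exact inv_mul_cancel₀ (norm_ne_zero_iff.2 hw0)
    · rw [inner_smul_right, hwu, mul_zero]
    · rw [inner_smul_right, hwv, mul_zero]
    · rw [hc, norm_zero, zero_smul]
  · have hc' := norm_ne_zero_iff.2 hc
    refine ⟨(‖c‖)⁻¹ • c, ?_, ?_, ?_, ?_⟩
    · rw [norm_smul, norm_inv, norm_norm]
      exact inv_mul_cancel₀ hc'
    · rw [inner_smul_right, real_inner_comm, hcu, mul_zero]
    · rw [inner_smul_right, real_inner_comm, hcv, mul_zero]
    · rw [smul_smul, mul_inv_cancel₀ hc', one_smul]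

end Pool.Agent.Lib.MP_045051_co.Pent
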