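import Pool.Agent.Lib.MP_045051_co.Pent.Grid

/-!
From continuous families of five values to labels.
-/

set_option autoImplicit false

open scoped BigOperators

namespace Pool.Agent.Lib.MP_045051_co.Pent

/-- `A` is a separated set of largest values -/
def Valid (δ : ℝ) (x : ZMod 5 → ℝ) (A : Finset (ZMod 5)) : Prop :=
  2 ≤ A.card ∧ A.card ≤ 4 ∧ ∀ i ∈ A, ∀ j ∉ A, x j + δ ≤ x i

theorem valid_unique {δ : ℝ} {x x' : ZMod 5 → ℝ} (h : ∀ k, |x k - x' k| < δ)
    {A A' : Finset (ZMod 5)} (hA : Valid δ x A) (hA' : Valid δ x' A') (hc : A.card = A'.card) :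
    A = A' := by
  by_contra hne
  have h1 : (A \ A').Nonempty := by
    rw [Finset.sdiff_nonempty]
    intro hsub
    exact hne (Finset.eq_of_subset_of_card_le hsub hc.ge)
  have h2 : (A' \ A).Nonempty := by
    rw [Finset.sdiff_nonempty]
    intro hsub
    exact hne (Finset.eq_of_subset_of_card_le hsub hc.le).symm
  obtain ⟨i, hi⟩ := h1
  obtain ⟨j, hj⟩ := h2
  rw [Finset.mem_sdiff] at hi hj
  have e1 := hA.2.2 i hi.1 j hj.2
  have e2 := hA'.2.2 j hj.1 i hi.2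
  have e3 := abs_lt.1 (h i)
  have e4 := abs_lt.1 (h j)
  linarith [e3.1, e3.2, e4.1, e4.2]

theorem valid_exists {δ : ℝ} (hδ : 0 < δ) (x : ZMod 5 → ℝ)
    (h : ∀ m, ∃ i j, i ≠ m ∧ j ≠ m ∧ x j + 4 * δ ≤ x i) : ∃ A, Valid δ x A := by
  classical
  obtain ⟨i1, hi1⟩ := Finite.exists_max x
  obtain ⟨i, j, hi, hj, hij⟩ := h i1
  have hne : i ≠ j := by
    intro e
    rw [e] at hij
    linarith
  have hfree : ∃ t : Fin 4, ∀ k, ¬ (x j + (t : ℕ) * δ < x k ∧ x k < x j + ((t : ℕ) + 1) * δ) := by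
    by_contra hcon
    push Not at hcon
    choose k hk using hcon
    have hinj : Function.Injective k := by
      intro t t' htt
      by_contra hne
      have key : ∀ t t' : Fin 4, k t = k t' → (t : ℕ) < t' → False := by
        intro t t' he hlt
        have h1 := (hk t).2
        have h2 := (hk t').1
        rw [he] at h1
        have h3 : ((t : ℕ) : ℝ) + 1 ≤ (t' : ℕ) := by exact_mod_cast hlt
        nlinarith
      rcases lt_trichotomy (t : ℕ) t' with h | h | h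
      · exact key t t' htt h
      · exact hne (Fin.ext h)
      · exact key t' t htt.symm h
    have h3 : ∀ t, k t ≠ i := by
      intro t e
      have h1 := (hk t).2
      rw [e] at h1
      have h2 : ((t : ℕ) : ℝ) + 1 ≤ 4 := by
        have := t.2
        exact_mod_cast this
      nlinarith
    have h4 : ∀ t, k t ≠ j := by
      intro t e
      have h1 := (hk t).1
      rw [e] at h1
      have h2 : (0 : ℝ) ≤ (t : ℕ) := Nat.cast_nonneg _
      nlinarith
    have h5 : (Finset.univ.image k).card = 4 := by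
      rw [Finset.card_image_of_injective _ hinj]
      rfl
    have h6 : (Finset.univ.image k) ⊆ (Finset.univ.erase i).erase j := by
      intro a ha
      obtain ⟨t, -, rfl⟩ := Finset.mem_image.1 ha
      rw [Finset.mem_erase, Finset.mem_erase]
      exact ⟨h4 t, h3 t, Finset.mem_univ _⟩
    have h7 := Finset.card_le_card h6
    rw [h5, Finset.card_erase_of_mem (by
      rw [Finset.mem_erase]
      exact ⟨hne.symm, Finset.mem_univ _⟩), Finset.card_erase_of_mem (Finset.mem_univ _),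
      Finset.card_univ, ZMod.card] at h7
    omega
  obtain ⟨t, ht⟩ := hfree
  have ht4 : ((t : ℕ) : ℝ) + 1 ≤ 4 := by
    have := t.2
    exact_mod_cast this
  have ht0 : (0 : ℝ) ≤ (t : ℕ) := Nat.cast_nonneg _
  refine ⟨Finset.univ.filter fun k => x j + ((t : ℕ) + 1) * δ ≤ x k, ?_, ?_, ?_⟩
  · have hsub : ({i, i1} : Finset (ZMod 5)) ⊆
        Finset.univ.filter fun k => x j + ((t : ℕ) + 1) * δ ≤ x k := by
      intro a ha
      rw [Finset.mem_insert, Finset.mem_singleton] at ha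
      rw [Finset.mem_filter]
      refine ⟨Finset.mem_univ _, ?_⟩
      have h1 : x j + ((t : ℕ) + 1) * δ ≤ x i := by nlinarith
      rcases ha with rfl | rfl
      · exact h1
      · exact h1.trans (hi1 i)
    have := Finset.card_le_card hsub
    rwa [Finset.card_pair hi] at this
  · have hsub : (Finset.univ.filter fun k => x j + ((t : ℕ) + 1) * δ ≤ x k) ⊆
        Finset.univ.erase j := by
      intro a ha
      rw [Finset.mem_filter] at ha
      rw [Finset.mem_erase]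
      refine ⟨?_, Finset.mem_univ _⟩
      rintro rfl
      nlinarith [ha.2]
    have := Finset.card_le_card hsub
    rwa [Finset.card_erase_of_mem (Finset.mem_univ _), Finset.card_univ, ZMod.card] at this
  · intro a ha b hb
    rw [Finset.mem_filter] at ha hb
    have h1 : x b < x j + ((t : ℕ) + 1) * δ := by
      by_contra hcon
      exact hb ⟨Finset.mem_univ _, not_lt.1 hcon⟩
    have h2 : x b ≤ x j + (t : ℕ) * δ := by
      by_contra hcon
      exact ht b ⟨not_le.1 hcon, h1⟩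
    linarith [ha.2]

/-- shift of a set -/
def sh (A : Finset (ZMod 5)) : Finset (ZMod 5) := A.map (Equiv.subRight (1 : ZMod 5)).toEmbedding

theorem mem_sh {A : Finset (ZMod 5)} {a : ZMod 5} : a ∈ sh A ↔ a + 1 ∈ A := by
  unfold sh
  rw [Finset.mem_map]
  constructor
  · rintro ⟨b, hb, rfl⟩
    simpa using hb
  · intro h
    exact ⟨a + 1, h, by simp⟩

theorem card_sh (A : Finset (ZMod 5)) : (sh A).card = A.card := Finset.card_map _

theorem sh_surj (A : Finset (ZMod 5)) : ∃ B, sh B = A := by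
  refine ⟨A.map (Equiv.addRight (1 : ZMod 5)).toEmbedding, ?_⟩
  ext a
  rw [mem_sh, Finset.mem_map]
  constructor
  · rintro ⟨b, hb, he⟩
    have : b = a := by simpa using he
    rwa [← this]
  · intro h
    exact ⟨a, h, by simp⟩

theorem valid_sh {δ : ℝ} {x x' : ZMod 5 → ℝ} (hx : ∀ k, x' k = x (k + 1))
    {A : Finset (ZMod 5)} : Valid δ x' (sh A) ↔ Valid δ x A := by
  unfold Valid
  rw [card_sh]
  refine and_congr_right fun _ => and_congr_right fun _ => ?_
  constructor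
  · intro h i hi j hj
    have h1 := h (i - 1) (mem_sh.2 (by simpa using hi)) (j - 1)
      (fun hc => hj (by simpa using mem_sh.1 hc))
    rw [hx, hx] at h1
    simpa using h1
  · intro h i hi j hj
    rw [hx, hx]
    exact h _ (mem_sh.1 hi) _ fun hc => hj (mem_sh.2 hc)

/-- the smallest size of a valid set -/
noncomputable def szOf (δ : ℝ) (x : ZMod 5 → ℝ) : ℕ :=
  sInf {k | ∃ A : Finset (ZMod 5), Valid δ x A ∧ A.card = k}

open Classical in
/-- the chosen valid set -/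
noncomputable def chosen (δ : ℝ) (x : ZMod 5 → ℝ) : Finset (ZMod 5) :=
  if h : ∃ A : Finset (ZMod 5), Valid δ x A ∧ A.card = szOf δ x then h.choose else ∅

theorem chosen_spec {δ : ℝ} {x : ZMod 5 → ℝ} (h : ∃ A, Valid δ x A) :
    Valid δ x (chosen δ x) ∧ (chosen δ x).card = szOf δ x := by
  have h1 : ∃ A : Finset (ZMod 5), Valid δ x A ∧ A.card = szOf δ x := by
    obtain ⟨A, hA⟩ := h
    exact Nat.sInf_mem (s := {k | ∃ A : Finset (ZMod 5), Valid δ x A ∧ A.card = k})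
      ⟨_, A, hA, rfl⟩
  unfold chosen
  rw [dif_pos h1]
  exact h1.choose_spec

theorem chosen_shift {δ : ℝ} (hδ : 0 < δ) {x x' : ZMod 5 → ℝ} (hx : ∀ k, x' k = x (k + 1))
    (h : ∃ A, Valid δ x A) : chosen δ x' = sh (chosen δ x) := by
  have h' : ∃ A, Valid δ x' A := by
    obtain ⟨A, hA⟩ := h
    exact ⟨sh A, (valid_sh hx).2 hA⟩
  have e : szOf δ x' = szOf δ x := by
    unfold szOf
    congr 1
    ext k
    constructor
    · rintro ⟨A, hA, hk⟩
      obtain ⟨B, rfl⟩ := sh_surj A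
      exact ⟨B, (valid_sh hx).1 hA, by rwa [card_sh] at hk⟩
    · rintro ⟨A, hA, hk⟩
      exact ⟨sh A, (valid_sh hx).2 hA, by rwa [card_sh]⟩
  have s1 := chosen_spec h
  have s2 := chosen_spec h'
  refine valid_unique (x := x') (x' := x') (fun k => by rw [sub_self, abs_zero]; exact hδ) s2.1
    ((valid_sh hx).2 s1.1) ?_
  rw [card_sh, s1.2, s2.2, e]

/-- inverses of 2, 3, 4 modulo 5 -/
def ic (c : ℕ) : ZMod 5 := if c = 2 then 3 else if c = 3 then 2 else 4

theorem ic_spec {c : ℕ} (h1 : 2 ≤ c) (h2 : c ≤ 4) : (c : ZMod 5) * ic c = 1 := by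
  interval_cases c <;> decide

/-- the second label of a set -/
def sv (A : Finset (ZMod 5)) : ZMod 5 := -(∑ a ∈ A, a) * ic A.card

theorem sv_sh {A : Finset (ZMod 5)} (h1 : 2 ≤ A.card) (h2 : A.card ≤ 4) :
    sv (sh A) = sv A + 1 := by
  unfold sv
  rw [card_sh]
  have e : ∑ a ∈ sh A, a = ∑ a ∈ A, a - (A.card : ZMod 5) := by
    unfold sh
    rw [Finset.sum_map]
    simp [Finset.sum_sub_distrib]
  rw [e]
  linear_combination ic_spec h1 h2

/-- the label of a vector -/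
noncomputable def lab (δ : ℝ) (x : ZMod 5 → ℝ) : Lb :=
  (Fin.ofNat 3 (chosen δ x).card, sv (chosen δ x))

theorem lab_compat {δ : ℝ} {x x' : ZMod 5 → ℝ} (h : ∃ A, Valid δ x A) (h' : ∃ A, Valid δ x' A)
    (hd : ∀ k, |x k - x' k| < δ) : Compat (lab δ x) (lab δ x') := by
  intro he
  obtain ⟨s1, -⟩ := chosen_spec h
  obtain ⟨s2, -⟩ := chosen_spec h'
  have hc : (chosen δ x).card = (chosen δ x').card := by
    have key : ∀ a b : ℕ, 2 ≤ a → a ≤ 4 → 2 ≤ b → b ≤ 4 → Fin.ofNat 3 a = Fin.ofNat 3 b →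
        a = b := by
      intro a b h1 h2 h3 h4
      interval_cases a <;> interval_cases b <;> decide
    exact key _ _ s1.1 s1.2.1 s2.1 s2.2.1 he
  have := valid_unique hd s1 s2 hc
  show sv _ = sv _
  rw [this]

theorem lab_shift {δ : ℝ} (hδ : 0 < δ) {x x' : ZMod 5 → ℝ} (hx : ∀ k, x' k = x (k + 1))
    (h : ∃ A, Valid δ x A) : lab δ x' = gen (lab δ x) := by
  obtain ⟨s1, -⟩ := chosen_spec h
  unfold lab gen
  rw [chosen_shift hδ hx h, card_sh, sv_sh s1.1 s1.2.1]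

/-- The topological lemma. -/
theorem topo (Φ : ℝ → ℝ → ℝ → ZMod 5 → ℝ)
    (hc : Continuous fun p : ℝ × ℝ × ℝ => Φ p.1 p.2.1 p.2.2)
    (hper : ∀ θ ψ φ, Φ (θ + 2 * Real.pi) ψ φ = Φ θ ψ φ) (h0 : ∀ θ φ, Φ θ 0 φ = Φ θ 0 0)
    (h1 : ∀ θ φ, Φ θ (Real.pi / 2) φ = Φ 0 (Real.pi / 2) φ)
    (hg : ∀ θ ψ k, Φ (θ + 2 * Real.pi / 5) ψ (2 * Real.pi / 5) k = Φ θ ψ 0 (k + 1)) :
    ∃ θ ψ φ m, ∀ k k', k ≠ m → k' ≠ m → Φ θ ψ φ k = Φ θ ψ φ k' := by
  classical
  by_contra hcon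
  push Not at hcon
  have hpi := Real.pi_pos
  -- the compact box
  obtain ⟨B, hB⟩ : ∃ B : Set (ℝ × ℝ × ℝ), B = Set.Icc 0 (4 * Real.pi) ×ˢ
      (Set.Icc 0 (Real.pi / 2) ×ˢ Set.Icc 0 (2 * Real.pi / 5)) := ⟨_, rfl⟩
  have hBc : IsCompact B := by
    rw [hB]
    exact isCompact_Icc.prod (isCompact_Icc.prod isCompact_Icc)
  have hBne : B.Nonempty := by
    refine ⟨(0, 0, 0), ?_⟩
    rw [hB]
    refine ⟨⟨le_rfl, ?_⟩, ⟨le_rfl, ?_⟩, ⟨le_rfl, ?_⟩⟩ <;> simp only <;> positivity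
  obtain ⟨G, hG⟩ : ∃ G : ZMod 5 → ℝ × ℝ × ℝ → ℝ, ∀ m p, G m p =
      ∑ i, ∑ j, if i = m ∨ j = m then 0 else |Φ p.1 p.2.1 p.2.2 i - Φ p.1 p.2.1 p.2.2 j| :=
    ⟨_, fun _ _ => rfl⟩
  have hck : ∀ k, Continuous fun p : ℝ × ℝ × ℝ => Φ p.1 p.2.1 p.2.2 k :=
    fun k => (continuous_apply k).comp hc
  have hGc : ∀ m, Continuous (G m) := by
    intro m
    have : G m = fun p => ∑ i, ∑ j, if i = m ∨ j = m then 0 else
        |Φ p.1 p.2.1 p.2.2 i - Φ p.1 p.2.1 p.2.2 j| := by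
      funext p
      exact hG m p
    rw [this]
    refine continuous_finsetSum _ fun i _ => continuous_finsetSum _ fun j _ => ?_
    split_ifs
    · exact continuous_const
    · exact ((hck i).sub (hck j)).abs
  have hGpos : ∀ m p, 0 < G m p := by
    intro m p
    obtain ⟨k, k', hk, hk', hne⟩ := hcon p.1 p.2.1 p.2.2 m
    rw [hG]
    have hnn : ∀ i j : ZMod 5, 0 ≤ if i = m ∨ j = m then (0 : ℝ) else
        |Φ p.1 p.2.1 p.2.2 i - Φ p.1 p.2.1 p.2.2 j| := by
      intro i j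
      split_ifs
      · exact le_rfl
      · exact abs_nonneg _
    refine Finset.sum_pos' (fun i _ => Finset.sum_nonneg fun j _ => hnn i j)
      ⟨k, Finset.mem_univ _, Finset.sum_pos' (fun j _ => hnn k j) ⟨k', Finset.mem_univ _, ?_⟩⟩
    rw [if_neg (by push Not; exact ⟨hk, hk'⟩)]
    exact abs_pos.2 (sub_ne_zero.2 hne)
  have hmin : ∀ m, ∃ ε : ℝ, 0 < ε ∧ ∀ p ∈ B, ε ≤ G m p := by
    intro m
    obtain ⟨p, -, hp⟩ := hBc.exists_isMinOn hBne (hGc m).continuousOn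
    exact ⟨G m p, hGpos m p, fun q hq => hp hq⟩
  choose ε hε hεG using hmin
  obtain ⟨m0, hm0⟩ := Finite.exists_min ε
  obtain ⟨δ, hδdef⟩ : ∃ δ : ℝ, δ = ε m0 / 200 := ⟨_, rfl⟩
  have hδ : 0 < δ := by
    rw [hδdef]
    have := hε m0
    positivity
  have hvalB : ∀ p ∈ B, ∃ A, Valid δ (Φ p.1 p.2.1 p.2.2) A := by
    intro p hp
    apply valid_exists hδ
    intro m
    by_contra hno
    push Not at hno
    have h2 : ∀ i j : ZMod 5, (if i = m ∨ j = m then (0 : ℝ) else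
        |Φ p.1 p.2.1 p.2.2 i - Φ p.1 p.2.1 p.2.2 j|) ≤ 4 * δ := by
      intro i j
      split_ifs with hij
      · positivity
      · push Not at hij
        have a1 := hno i j hij.1 hij.2
        have a2 := hno j i hij.2 hij.1
        rw [abs_le]
        constructor <;> linarith
    have h3 : G m p ≤ ∑ _i : ZMod 5, ∑ _j : ZMod 5, 4 * δ := by
      rw [hG]
      exact Finset.sum_le_sum fun i _ => Finset.sum_le_sum fun j _ => h2 i j
    have h4 : ∑ _i : ZMod 5, ∑ _j : ZMod 5, 4 * δ = 100 * δ := by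
      rw [Finset.sum_const, Finset.sum_const, Finset.card_univ, ZMod.card]
      simp only [nsmul_eq_mul]
      push_cast
      ring
    have h5 := hεG m p hp
    have h6 := hm0 m
    have h7 := hε m0
    rw [h4] at h3
    rw [hδdef] at h3
    linarith
  have hval : ∀ θ ψ φ, ψ ∈ Set.Icc 0 (Real.pi / 2) → φ ∈ Set.Icc 0 (2 * Real.pi / 5) →
      ∃ A, Valid δ (Φ θ ψ φ) A := by
    intro θ ψ φ hψ hφ
    have hP : Function.Periodic (fun θ => Φ θ ψ φ) (2 * Real.pi) := fun θ => hper θ ψ φ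
    obtain ⟨θ', hθ', he⟩ := hP.exists_mem_Ico₀ (by positivity) θ
    have he' : Φ θ ψ φ = Φ θ' ψ φ := he
    rw [he']
    refine hvalB (θ', ψ, φ) ?_
    rw [hB]
    exact ⟨⟨hθ'.1, by have := hθ'.2; simp only; linarith⟩, hψ, hφ⟩
  -- uniform continuity
  have huc := hBc.uniformContinuousOn_of_continuous hc.continuousOn
  rw [Metric.uniformContinuousOn_iff] at huc
  obtain ⟨η, hη, huc⟩ := huc δ hδ
  obtain ⟨n, hn⟩ := exists_nat_gt (2 * Real.pi / η)
  have hn0 : 0 < n := by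
    have : (0 : ℝ) < n := lt_of_le_of_lt (by positivity) hn
    exact_mod_cast this
  have hnr : (0 : ℝ) < n := by exact_mod_cast hn0
  have hstep : 2 * Real.pi / n < η := by
    rw [div_lt_iff₀ hη] at hn
    rw [div_lt_iff₀ hnr]
    linarith
  obtain ⟨sx, hsx⟩ : ∃ s : ℝ, s = 2 * Real.pi / (5 * n) := ⟨_, rfl⟩
  obtain ⟨sy, hsy⟩ : ∃ s : ℝ, s = Real.pi / (2 * n) := ⟨_, rfl⟩
  have hsx0 : 0 < sx := by rw [hsx]; positivity
  have hsy0 : 0 < sy := by rw [hsy]; positivity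
  have hsxη : sx < η := by
    refine lt_of_le_of_lt ?_ hstep
    rw [hsx]
    exact div_le_div_of_nonneg_left (by positivity) hnr (by linarith)
  have hsyη : sy < η := by
    refine lt_of_le_of_lt ?_ hstep
    rw [hsy, div_le_div_iff₀ (by positivity) hnr]
    nlinarith
  have hnx : (n : ℝ) * sx = 2 * Real.pi / 5 := by rw [hsx]; field_simp
  have h5nx : ((5 * n : ℕ) : ℝ) * sx = 2 * Real.pi := by
    rw [hsx]
    push_cast
    field_simp
  have hny : (n : ℝ) * sy = Real.pi / 2 := by rw [hsy]; field_simp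
  have hψmem : ∀ y ≤ n, (y : ℝ) * sy ∈ Set.Icc 0 (Real.pi / 2) := by
    intro y hy
    have h2 : (y : ℝ) ≤ n := by exact_mod_cast hy
    refine ⟨by positivity, ?_⟩
    rw [← hny]
    exact mul_le_mul_of_nonneg_right h2 hsy0.le
  have hφmem : ∀ z ≤ n, (z : ℝ) * sx ∈ Set.Icc 0 (2 * Real.pi / 5) := by
    intro z hz
    have h2 : (z : ℝ) ≤ n := by exact_mod_cast hz
    refine ⟨by positivity, ?_⟩
    rw [← hnx]
    exact mul_le_mul_of_nonneg_right h2 hsx0.le
  refine grid n n n (fun x y z => lab δ (Φ (x * sx) (y * sy) (z * sx))) ?_ ?_ ?_ ?_ ?_ hn0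
  · intro x y z
    have e : ((x + 5 * n : ℕ) : ℝ) * sx = x * sx + 2 * Real.pi := by
      rw [Nat.cast_add, add_mul, h5nx]
    show lab δ (Φ (((x + 5 * n : ℕ) : ℝ) * sx) ((y : ℝ) * sy) ((z : ℝ) * sx)) =
      lab δ (Φ ((x : ℝ) * sx) ((y : ℝ) * sy) ((z : ℝ) * sx))
    rw [e, hper]
  · intro x z
    show lab δ (Φ ((x : ℝ) * sx) (((0 : ℕ) : ℝ) * sy) ((z : ℝ) * sx)) =
      lab δ (Φ ((x : ℝ) * sx) (((0 : ℕ) : ℝ) * sy) (((0 : ℕ) : ℝ) * sx))
    rw [Nat.cast_zero, zero_mul, h0, zero_mul]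
  · intro x z
    show lab δ (Φ ((x : ℝ) * sx) ((n : ℝ) * sy) ((z : ℝ) * sx)) =
      lab δ (Φ (((0 : ℕ) : ℝ) * sx) ((n : ℝ) * sy) ((z : ℝ) * sx))
    rw [hny, h1, Nat.cast_zero, zero_mul]
  · intro x y hy
    have e : ((x + n : ℕ) : ℝ) * sx = x * sx + 2 * Real.pi / 5 := by
      rw [Nat.cast_add, add_mul, hnx]
    show lab δ (Φ (((x + n : ℕ) : ℝ) * sx) ((y : ℝ) * sy) ((n : ℝ) * sx)) =
      gen (lab δ (Φ ((x : ℝ) * sx) ((y : ℝ) * sy) (((0 : ℕ) : ℝ) * sx)))
    rw [e, hnx, Nat.cast_zero, zero_mul]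
    exact lab_shift hδ (fun k => hg _ _ k)
      (hval _ _ _ (hψmem y hy) ⟨le_rfl, by positivity⟩)
  · intro x hx y hy z hz i j k i' j' k' hi hj hk hi' hj' hk'
    have hxm : ∀ i ≤ 1, ((x + i : ℕ) : ℝ) * sx ∈ Set.Icc 0 (4 * Real.pi) := by
      intro i hi
      refine ⟨by positivity, ?_⟩
      have h2 : ((x + i : ℕ) : ℝ) ≤ ((5 * n : ℕ) : ℝ) := by exact_mod_cast (by omega)
      calc ((x + i : ℕ) : ℝ) * sx ≤ ((5 * n : ℕ) : ℝ) * sx :=
            mul_le_mul_of_nonneg_right h2 hsx0.le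
        _ = 2 * Real.pi := h5nx
        _ ≤ 4 * Real.pi := by linarith
    have hp : (((x + i : ℕ) : ℝ) * sx, ((y + j : ℕ) : ℝ) * sy, ((z + k : ℕ) : ℝ) * sx) ∈ B := by
      rw [hB]
      exact ⟨hxm i hi, hψmem _ (by omega), hφmem _ (by omega)⟩
    have hq : (((x + i' : ℕ) : ℝ) * sx, ((y + j' : ℕ) : ℝ) * sy, ((z + k' : ℕ) : ℝ) * sx) ∈ B := by
      rw [hB]
      exact ⟨hxm i' hi', hψmem _ (by omega), hφmem _ (by omega)⟩
    have hdiff : ∀ (a i i' : ℕ) (s : ℝ), i ≤ 1 → i' ≤ 1 → 0 < s → s < η →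
        dist (((a + i : ℕ) : ℝ) * s) (((a + i' : ℕ) : ℝ) * s) < η := by
      intro a i i' s hi hi' hs hsη
      rw [Real.dist_eq, ← sub_mul, abs_mul, abs_of_pos hs]
      have h2 : |((a + i : ℕ) : ℝ) - ((a + i' : ℕ) : ℝ)| ≤ 1 := by
        push_cast
        rw [add_sub_add_left_eq_sub, abs_le]
        have b1 : (i : ℝ) ≤ 1 := by exact_mod_cast hi
        have b2 : (i' : ℝ) ≤ 1 := by exact_mod_cast hi'
        have b3 : (0 : ℝ) ≤ i := Nat.cast_nonneg _
        have b4 : (0 : ℝ) ≤ i' := Nat.cast_nonneg _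
        constructor <;> linarith
      calc |((a + i : ℕ) : ℝ) - ((a + i' : ℕ) : ℝ)| * s ≤ 1 * s :=
            mul_le_mul_of_nonneg_right h2 hs.le
        _ = s := one_mul _
        _ < η := hsη
    have hdist := huc _ hp _ hq (by
      rw [Prod.dist_eq, Prod.dist_eq]
      exact max_lt (hdiff x i i' sx hi hi' hsx0 hsxη)
        (max_lt (hdiff y j j' sy hj hj' hsy0 hsyη) (hdiff z k k' sx hk hk' hsx0 hsxη)))
    refine lab_compat (hvalB _ hp) (hvalB _ hq) fun l => ?_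
    have h2 := (dist_pi_lt_iff hδ).1 hdist l
    rwa [Real.dist_eq] at h2

end Pool.Agent.Lib.MP_045051_co.Pent
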